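import Pool.Agent.Y811.PC.Stm6

set_option autoImplicit false

/-!
# PA-RES and PA-AIDX (project PA of helper811)
-/

namespace Pool.Agent.Y590.PA

open Complex Metric Set Filter Topology MeasureTheory Pool.Agent.H712R2 Pool.Agent.Y811.PC

open Classical in
/-- residues at simple zeros -/
theorem t_RES : S_RES := by
  intro p z₀ ρ hρ hs hb
  have hp : p ≠ 0 := by
    rintro rfl
    refine hs (z₀ + ρ) ?_ (by simp)
    simp [abs_of_pos hρ]
  set S : Finset ℂ := p.roots.toFinset.filter (fun z => z ∈ ball z₀ ρ) with hS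
  have hmem : ∀ z, z ∈ S ↔ z ∈ ball z₀ ρ ∧ p.eval z = 0 := by
    intro z
    rw [hS, Finset.mem_filter, Multiset.mem_toFinset, Polynomial.mem_roots hp]
    exact and_comm
  refine ⟨S, hmem, ?_, ?_⟩
  · calc S.card ≤ p.roots.toFinset.card := Finset.card_filter_le _ _
      _ ≤ p.roots.card := Multiset.toFinset_card_le _
      _ ≤ p.natDegree := Polynomial.card_roots' p
  obtain ⟨R, hR⟩ : Lagrange.nodal S id ∣ p := by
    have h1 : (S.val.map fun a => Polynomial.X - Polynomial.C a).prod ∣ p := by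
      rw [Multiset.prod_X_sub_C_dvd_iff_le_roots hp, Multiset.le_iff_subset S.nodup]
      intro a ha
      have ha' : a ∈ S := ha
      rw [hS, Finset.mem_filter, Multiset.mem_toFinset] at ha'
      exact ha'.1
    exact h1
  set N : Polynomial ℂ := Lagrange.nodal S id with hN
  have hN0 : ∀ z, z ∈ S → N.eval z = 0 := fun z hz => Lagrange.eval_nodal_at_node (v := id) hz
  have hder : ∀ z, z ∈ S → p.derivative.eval z = N.derivative.eval z * R.eval z := by
    intro z hz
    rw [hR, Polynomial.derivative_mul, Polynomial.eval_add, Polynomial.eval_mul,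
      Polynomial.eval_mul, hN0 z hz, zero_mul, add_zero]
  have hRne : ∀ z ∈ closedBall z₀ ρ, R.eval z ≠ 0 := by
    intro z hz h0
    have h1 : p.eval z = 0 := by rw [hR, Polynomial.eval_mul, h0, mul_zero]
    have h2 : z ∈ ball z₀ ρ := by
      rw [← ball_union_sphere] at hz
      rcases hz with hz | hz
      · exact hz
      · exact absurd h1 (hs z hz)
    have h3 : z ∈ S := (hmem z).2 ⟨h2, h1⟩
    apply hb z h2 h1
    rw [hder z h3, h0, mul_zero]
  have hRd : DiffContOnCl ℂ (fun z => (R.eval z)⁻¹) (ball z₀ ρ) := by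
    apply DifferentiableOn.diffContOnCl
    intro z hz
    rw [closure_ball z₀ hρ.ne'] at hz
    exact (R.differentiable.differentiableAt.inv (hRne z hz)).differentiableWithinAt
  have hsS : ∀ z ∈ sphere z₀ ρ, z ∉ S := fun z hz h => hs z hz ((hmem z).1 h).2
  rcases S.eq_empty_or_nonempty with hE | hE
  · rw [hE, Finset.sum_empty, mul_zero]
    have h1 : N = 1 := by rw [hN, hE, Lagrange.nodal_empty]
    have h2 : (fun z => (p.eval z)⁻¹) = fun z => (R.eval z)⁻¹ := by
      funext z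
      rw [hR, h1, one_mul]
    rw [h2]
    exact hRd.circleIntegral_eq_zero hρ.le
  · have key : ∀ z ∈ sphere z₀ ρ, (p.eval z)⁻¹ =
        ∑ ζ ∈ S, (N.derivative.eval ζ)⁻¹ * ((z - ζ)⁻¹ • (R.eval z)⁻¹) := by
      intro z hz
      have h1 := Lagrange.eval_interpolate_not_at_node (s := S) (v := id) (x := z) (r := 1)
        (fun i hi h => hsS z hz (by rw [h]; exact hi))
      rw [Lagrange.interpolate_one (Function.injective_id.injOn) hE, Polynomial.eval_one] at h1
      have h2 : N.eval z ≠ 0 := by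
        intro h0
        rw [← hN, h0, zero_mul] at h1
        exact one_ne_zero h1
      have h3 : (N.eval z)⁻¹ = ∑ ζ ∈ S, (N.derivative.eval ζ)⁻¹ * (z - ζ)⁻¹ := by
        rw [← hN] at h1
        have h4 : (∑ i ∈ S, Lagrange.nodalWeight S id i * (z - id i)⁻¹ * (1 : ℂ → ℂ) i) =
            ∑ ζ ∈ S, (N.derivative.eval ζ)⁻¹ * (z - ζ)⁻¹ := by
          refine Finset.sum_congr rfl fun i hi => ?_
          rw [Lagrange.nodalWeight_eq_eval_derivative_nodal hi, Pi.one_apply, mul_one]
          rfl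
        rw [h4] at h1
        exact (eq_inv_of_mul_eq_one_right h1.symm).symm
      rw [hR, Polynomial.eval_mul, mul_inv, h3, Finset.sum_mul]
      refine Finset.sum_congr rfl fun i hi => ?_
      rw [smul_eq_mul, mul_assoc]
    rw [circleIntegral.integral_congr hρ.le key, circleIntegral.integral_fun_sum]
    · rw [Finset.mul_sum]
      refine Finset.sum_congr rfl fun ζ hζ => ?_
      rw [circleIntegral.integral_const_mul,
        hRd.circleIntegral_sub_inv_smul ((hmem ζ).1 hζ).1, hder ζ hζ, mul_inv, smul_eq_mul]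
      ring
    · intro ζ hζ
      apply ContinuousOn.circleIntegrable hρ.le
      intro z hz
      have h1 : z - ζ ≠ 0 := by
        intro h
        rw [sub_eq_zero.1 h] at hz
        exact hsS ζ hz hζ
      have h2 := hRne z (sphere_subset_closedBall hz)
      have h3 : ContinuousAt (fun z => (N.derivative.eval ζ)⁻¹ * ((z - ζ)⁻¹ • (R.eval z)⁻¹)) z :=
        continuousAt_const.mul (((continuousAt_id.sub continuousAt_const).inv₀ h1).smul
          (R.continuous.continuousAt.inv₀ h2))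
      exact h3.continuousWithinAt

/-- the iterates as polynomials -/
noncomputable def QQ (d : ℕ) (c : ℂ) : ℕ → Polynomial ℂ
  | 0 => Polynomial.X
  | j + 1 => QQ d c j ^ d + Polynomial.C c

theorem QQ_eval (d : ℕ) (c : ℂ) (j : ℕ) (z : ℂ) : (QQ d c j).eval z = G d j c z := by
  induction j with
  | zero =>
    show Polynomial.eval z Polynomial.X = z
    simp
  | succ j ih =>
    show Polynomial.eval z (QQ d c j ^ d + Polynomial.C c) = (fc d c)^[j + 1] z
    rw [Function.iterate_succ_apply', Polynomial.eval_add, Polynomial.eval_pow, Polynomial.eval_C,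
      ih]
    rfl

theorem QQ_deg {d : ℕ} (c : ℂ) (j : ℕ) : (QQ d c j).natDegree = d ^ j := by
  induction j with
  | zero =>
    show (Polynomial.X : Polynomial ℂ).natDegree = _
    simp
  | succ j ih =>
    show (QQ d c j ^ d + Polynomial.C c).natDegree = _
    rw [Polynomial.natDegree_add_C, Polynomial.natDegree_pow, ih, pow_succ]
    ring

theorem G_eq (d : ℕ) (c : ℂ) (j : ℕ) : G d j c = fun z => (QQ d c j).eval z := by
  funext z
  exact (QQ_eval d c j z).symm

theorem QQ_der (d : ℕ) (c : ℂ) (j : ℕ) (z : ℂ) : (QQ d c j).derivative.eval z = mu d j c z := by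
  unfold mu
  rw [G_eq, Polynomial.deriv]

theorem G_diff (d j : ℕ) (c z : ℂ) : HasDerivAt (G d j c) (mu d j c z) z := by
  have h : DifferentiableAt ℂ (G d j c) z := by
    rw [G_eq]
    exact Polynomial.differentiable _ z
  exact h.hasDerivAt

theorem G_mul (d m q : ℕ) (c : ℂ) : G d (m * q) c = (G d m c)^[q] := by
  unfold G
  rw [Function.iterate_mul]

theorem G_fix {d m : ℕ} (q : ℕ) {c z : ℂ} (h : G d m c z = z) : G d (m * q) c z = z := by
  rw [G_mul]
  exact Function.IsFixedPt.iterate h q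

theorem mu_fix {d m : ℕ} (q : ℕ) {c z : ℂ} (h : G d m c z = z) :
    mu d (m * q) c z = mu d m c z ^ q := by
  have h1 := HasDerivAt.iterate z (G_diff d m c z) h q
  rw [← G_mul] at h1
  exact h1.deriv

theorem re_inv_le {μ : ℂ} (h : 1 ≤ ‖μ‖) (h1 : μ ≠ 1) : ((1 - μ)⁻¹).re ≤ 1 / 2 := by
  have h2 : 1 - μ ≠ 0 := sub_ne_zero.2 h1.symm
  have h3 : 0 < normSq (1 - μ) := normSq_pos.2 h2
  rw [inv_re, div_le_iff₀ h3]
  have h4 : 1 ≤ normSq μ := by
    rw [← Complex.sq_norm]
    nlinarith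
  rw [normSq_apply] at h4 ⊢
  simp only [sub_re, sub_im, one_re, one_im] at *
  nlinarith

theorem t_AIDX (h : S_RES) (hA : S_ANA) : S_AIDX := by
  intro d m q c₀ z₀ hP al hal hal0 hfix
  set n : ℕ := m * q with hn
  have hn1 : 1 ≤ n := Nat.mul_pos hP.hm hP.hq
  have hd1 : 1 < d := hP.hd
  have hdn : 2 ≤ d ^ n := by
    calc 2 ≤ d := hP.hd
      _ = d ^ 1 := (pow_one d).symm
      _ ≤ d ^ n := Nat.pow_le_pow_right (by omega) hn1
  set p : ℂ → Polynomial ℂ := fun c => Polynomial.X - QQ d c n with hp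
  have hpe : ∀ c z, (p c).eval z = z - G d n c z := by
    intro c z
    rw [hp, Polynomial.eval_sub, Polynomial.eval_X, QQ_eval]
  have hpd : ∀ c z, (p c).derivative.eval z = 1 - mu d n c z := by
    intro c z
    rw [hp, Polynomial.derivative_sub, Polynomial.derivative_X, Polynomial.eval_sub,
      Polynomial.eval_one, QQ_der]
  have hp0 : ∀ c, p c ≠ 0 := by
    intro c h0
    have h1 : (QQ d c n).natDegree = 1 := by
      rw [← sub_eq_zero.1 h0, Polynomial.natDegree_X]
    rw [QQ_deg] at h1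
    omega
  have hpn : ∀ c, (p c).natDegree ≤ d ^ n := by
    intro c
    refine (Polynomial.natDegree_sub_le _ _).trans ?_
    rw [QQ_deg, Polynomial.natDegree_X]
    exact max_le (by omega) le_rfl
  -- the radius
  obtain ⟨ρ, hρ, hρ1⟩ : ∃ ρ : ℝ, 0 < ρ ∧ ∀ z ∈ sphere z₀ ρ, (p c₀).eval z ≠ 0 := by
    have hf : (((p c₀).roots.toFinset : Set ℂ) \ {z₀}).Finite := (Finset.finite_toSet _).sdiff
    have h1 : (((p c₀).roots.toFinset : Set ℂ) \ {z₀})ᶜ ∈ 𝓝 z₀ :=
      hf.isClosed.isOpen_compl.mem_nhds (fun h => h.2 rfl)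
    obtain ⟨r, hr, hr1⟩ := Metric.mem_nhds_iff.1 h1
    refine ⟨r / 2, by positivity, fun z hz h0 => ?_⟩
    have h2 : z ∈ ball z₀ r := by
      rw [mem_sphere] at hz
      rw [mem_ball, hz]
      linarith
    apply hr1 h2
    refine ⟨?_, ?_⟩
    · rw [Finset.mem_coe, Multiset.mem_toFinset, Polynomial.mem_roots (hp0 c₀)]
      exact h0
    · intro h3
      rw [mem_singleton_iff] at h3
      rw [h3, mem_sphere, dist_self] at hz
      linarith
  have hFc : Continuous (fun x : ℂ × ℂ => ‖x.2 - G d n x.1 x.2‖) := by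
    rw [continuous_iff_continuousAt]
    rintro ⟨c, z⟩
    exact (continuousAt_snd.sub (hA d n c z).1.continuousAt).norm
  have hcpt : IsCompact (sphere z₀ ρ) := isCompact_sphere _ _
  have hne : (sphere z₀ ρ).Nonempty := NormedSpace.sphere_nonempty.2 hρ.le
  obtain ⟨zm, hzm, hmin⟩ := hcpt.exists_isMinOn hne
    (f := fun z => ‖z - G d n c₀ z‖)
    ((hFc.comp (continuous_const.prodMk continuous_id)).continuousOn)
  set δ₀ : ℝ := ‖zm - G d n c₀ zm‖ / 2 with hδ
  have hδ0 : 0 < δ₀ := by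
    have h1 := hρ1 zm hzm
    rw [hpe] at h1
    have := norm_pos_iff.2 h1
    positivity
  have hev : ∀ᶠ c in 𝓝 c₀, ∀ z ∈ sphere z₀ ρ, δ₀ < ‖z - G d n c z‖ := by
    refine hcpt.eventually_forall_of_forall_eventually
      (P := fun c z => δ₀ < ‖z - G d n c z‖) fun y hy => ?_
    have h1 : δ₀ < ‖y - G d n c₀ y‖ := by
      have h2 : ‖zm - G d n c₀ zm‖ ≤ ‖y - G d n c₀ y‖ := hmin hy
      have : ‖zm - G d n c₀ zm‖ = 2 * δ₀ := by rw [hδ]; ring
      linarith
    exact (hFc.continuousAt (x := (c₀, y))).eventually_const_lt h1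
  have hal1 : ∀ᶠ c in 𝓝 c₀, al c ∈ ball z₀ ρ := by
    apply hal.continuousAt
    rw [hal0]
    exact ball_mem_nhds _ hρ
  obtain ⟨ε, hε, hεb⟩ := Metric.eventually_nhds_iff_ball.1 (hev.and (hal1.and hfix))
  refine ⟨1 + ρ / δ₀ + d ^ n, ε, by positivity, hε, fun c hc hsim hhyp => ?_⟩
  obtain ⟨h1, h2, h3⟩ := hεb c hc
  have hs0 : ∀ z ∈ sphere z₀ ρ, (p c).eval z ≠ 0 := by
    intro z hz h0
    have h4 := h1 z hz
    rw [← hpe, h0, norm_zero] at h4
    linarith
  obtain ⟨S, hS, hcard, hint⟩ := h (p c) z₀ ρ hρ hs0 (fun z _ h0 => by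
    rw [hpd]
    rw [hpe] at h0
    exact sub_ne_zero.2 (hsim z (sub_eq_zero.1 h0).symm).symm)
  have hSf : ∀ z ∈ S, G d n c z = z := by
    intro z hz
    have := ((hS z).1 hz).2
    rw [hpe] at this
    exact (sub_eq_zero.1 this).symm
  have hterm : ∀ z ∈ S, (((p c).derivative.eval z)⁻¹).re ≤ 1 / 2 := by
    intro z hz
    rw [hpd]
    refine re_inv_le ?_ (hsim z (hSf z hz))
    by_contra hlt
    push Not at hlt
    exact hhyp ⟨n, z, hn1, hSf z hz, hlt⟩
  have halS : al c ∈ S := by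
    rw [hS, hpe]
    exact ⟨h2, sub_eq_zero.2 (G_fix q h3).symm⟩
  have hX : (1 / (1 - mu d m c (al c) ^ q)) = ((p c).derivative.eval (al c))⁻¹ := by
    rw [hpd, hn, mu_fix q h3, one_div]
  rw [hX]
  -- the sum
  have hsum : ‖∑ ζ ∈ S, ((p c).derivative.eval ζ)⁻¹‖ ≤ ρ / δ₀ := by
    have h5 : ‖∮ z in C(z₀, ρ), ((p c).eval z)⁻¹‖ ≤ 2 * Real.pi * ρ * δ₀⁻¹ := by
      refine circleIntegral.norm_integral_le_of_norm_le_const hρ.le fun z hz => ?_
      rw [norm_inv, hpe]
      exact inv_anti₀ hδ0 (h1 z hz).le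
    rw [hint, norm_mul] at h5
    have h6 : ‖(2 * Real.pi * I : ℂ)‖ = 2 * Real.pi := by
      simp [abs_of_pos Real.pi_pos]
    rw [h6] at h5
    have h7 : 0 < 2 * Real.pi := by positivity
    have h8 : 2 * Real.pi * ‖∑ ζ ∈ S, ((p c).derivative.eval ζ)⁻¹‖ ≤ 2 * Real.pi * (ρ / δ₀) := by
      calc _ ≤ 2 * Real.pi * ρ * δ₀⁻¹ := h5
        _ = 2 * Real.pi * (ρ / δ₀) := by rw [div_eq_mul_inv]; ring
    exact le_of_mul_le_mul_left h8 h7
  have hre : -(ρ / δ₀) ≤ ∑ ζ ∈ S, (((p c).derivative.eval ζ)⁻¹).re := by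
    rw [← Complex.re_sum]
    have := (abs_le.1 ((Complex.abs_re_le_norm _).trans hsum)).1
    exact this
  classical
  rw [← Finset.add_sum_erase _ _ halS] at hre
  have herase : ∑ ζ ∈ S.erase (al c), (((p c).derivative.eval ζ)⁻¹).re ≤ d ^ n := by
    calc ∑ ζ ∈ S.erase (al c), (((p c).derivative.eval ζ)⁻¹).re
        ≤ (S.erase (al c)).card • (1 / 2 : ℝ) :=
          Finset.sum_le_card_nsmul _ _ _ fun ζ hζ => hterm ζ (Finset.mem_of_mem_erase hζ)
      _ = ((S.erase (al c)).card : ℝ) * (1 / 2) := by rw [nsmul_eq_mul]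
      _ ≤ ((S.erase (al c)).card : ℝ) := by
          have : (0 : ℝ) ≤ ((S.erase (al c)).card : ℝ) := Nat.cast_nonneg _
          linarith
      _ ≤ (d ^ n : ℕ) := by
          exact_mod_cast (Finset.card_erase_le.trans (hcard.trans (hpn c)))
      _ = (d : ℝ) ^ n := by push_cast; ring
  have hup := hterm (al c) halS
  rw [abs_le]
  have hpos : 0 < ρ / δ₀ := by positivity
  have hdp : (0 : ℝ) ≤ (d : ℝ) ^ n := by positivity
  constructor
  · linarith
  · linarith

end Pool.Agent.Y590.PA
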